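import Pool.Agent.H47.UDA.OFF

/-!
MP_75a732_an, board uda_modules, row DIA: diagonal terms for products.
-/

set_option autoImplicit false

open Polynomial MeasureTheory Filter Topology Set
open scoped OnePoint ComplexConjugate ComplexOrder Laplacian ENNReal
open Pool.Agent.H83.UE Pool.Agent.H47.UDA

namespace Pool.Agent.H43.UDA

/-- difference of products -/
theorem prod_sub_prod_le {ι : Type} (s : Finset ι) (x c : ι → ℂ) (T δ : ℝ) (hT : 1 ≤ T)
    (hδ : 0 ≤ δ) (hx : ∀ i ∈ s, ‖x i‖ ≤ T) (hc : ∀ i ∈ s, ‖c i‖ ≤ T)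
    (hxc : ∀ i ∈ s, ‖x i - c i‖ ≤ T * δ) :
    ‖∏ i ∈ s, x i - ∏ i ∈ s, c i‖ ≤ s.card * T ^ s.card * δ := by
  classical
  induction s using Finset.induction_on with
  | empty => simp
  | insert a s ha ih =>
    rw [Finset.prod_insert ha, Finset.prod_insert ha, Finset.card_insert_of_notMem ha]
    have h1 := ih (fun i hi => hx i (Finset.mem_insert_of_mem hi))
      (fun i hi => hc i (Finset.mem_insert_of_mem hi))
      (fun i hi => hxc i (Finset.mem_insert_of_mem hi))
    have h2 : ‖∏ i ∈ s, c i‖ ≤ T ^ s.card := by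
      rw [norm_prod, ← Finset.prod_const]
      exact Finset.prod_le_prod (fun _ _ => norm_nonneg _)
        fun i hi => hc i (Finset.mem_insert_of_mem hi)
    have h3 : x a * ∏ i ∈ s, x i - c a * ∏ i ∈ s, c i =
        x a * (∏ i ∈ s, x i - ∏ i ∈ s, c i) + (x a - c a) * ∏ i ∈ s, c i := by ring
    rw [h3]
    refine (norm_add_le _ _).trans ?_
    rw [norm_mul, norm_mul]
    have h4 := hx a (Finset.mem_insert_self _ _)
    have h5 := hxc a (Finset.mem_insert_self _ _)
    have hT0 : 0 ≤ T := by linarith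
    calc ‖x a‖ * ‖∏ i ∈ s, x i - ∏ i ∈ s, c i‖ + ‖x a - c a‖ * ‖∏ i ∈ s, c i‖
        ≤ T * (s.card * T ^ s.card * δ) + (T * δ) * T ^ s.card :=
          add_le_add (mul_le_mul h4 h1 (norm_nonneg _) hT0)
            (mul_le_mul h5 h2 (norm_nonneg _) (by positivity))
      _ = ((s.card + 1 : ℕ) : ℝ) * T ^ (s.card + 1) * δ := by
          push_cast
          ring

/-- the limit of the normalised sums over fibres -/
theorem uni_val {d : ℕ} (hd : 2 ≤ d) (h2 : T_UNI) (h3 : T_RU) (g : RatMap d) (κ : ℝ)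
    (hg : Good g κ) (G : ℂ → ℝ) (μ : Measure ℂ) (hG : GreenBd g G) [IsProbabilityMeasure μ]
    (hμ : ∀ u : ℂ → ℝ, ContDiff ℝ 2 u → HasCompactSupport u →
      ∫ x, u x ∂μ = (2 * Real.pi)⁻¹ * ∫ x, G x * (Δ u) x)
    (u : ℂ → ℂ) (hu : ContDiff ℝ 2 u) (hc : HasCompactSupport u) :
    ∃ C : ℝ, 0 ≤ C ∧ ∀ (n : ℕ) (z : ℂ),
      ‖((d : ℂ) ^ n)⁻¹ * ((g.fib n z).roots.map u).sum - ∫ x, u x ∂μ‖ ≤ C * (κ / d) ^ n := by
  obtain ⟨hD, hp⟩ := h3 u hu hc
  obtain ⟨C, hC0, hC⟩ := h2 d hd g κ hg G hG (dens u) hD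
  refine ⟨C, hC0, fun n z => ?_⟩
  have h := hC n z
  rw [hp] at h
  have hre : ContDiff ℝ 2 (fun x => (u x).re) := Complex.reCLM.contDiff.comp hu
  have him : ContDiff ℝ 2 (fun x => (u x).im) := Complex.imCLM.contDiff.comp hu
  have hrc : HasCompactSupport (fun x => (u x).re) := hc.comp_left (g := Complex.re) rfl
  have hic : HasCompactSupport (fun x => (u x).im) := hc.comp_left (g := Complex.im) rfl
  have hlapc : ∀ φ : ℂ → ℝ, ContDiff ℝ 2 φ → Continuous (Δ φ) := by
    intro φ hφ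
    rw [InnerProductSpace.laplacian_eq_iteratedFDeriv_complexPlane]
    have h : Continuous (iteratedFDeriv ℝ 2 φ) := hφ.continuous_iteratedFDeriv le_rfl
    have h1 : ∀ v : Fin 2 → ℂ, Continuous fun x => iteratedFDeriv ℝ 2 φ x v := fun v =>
      (ContinuousMultilinearMap.apply ℝ (fun _ : Fin 2 => ℂ) ℝ v).continuous.comp h
    exact (h1 _).add (h1 _)
  have hlaps : ∀ φ : ℂ → ℝ, HasCompactSupport φ → HasCompactSupport (Δ φ) := by
    intro φ hφ
    refine HasCompactSupport.intro hφ fun z hz => ?_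
    rw [InnerProductSpace.laplacian_eq_iteratedFDeriv_complexPlane]
    have h : iteratedFDeriv ℝ 2 φ z = 0 := by
      by_contra hne
      exact hz (support_iteratedFDeriv_subset 2 (Function.mem_support.2 hne))
    simp only [h]
    simp
  have hi : ∀ φ : ℂ → ℝ, ContDiff ℝ 2 φ → HasCompactSupport φ →
      Integrable (fun w => G w * (Δ φ) w) := fun φ hφ hφc =>
    (hG.1.mul (hlapc φ hφ)).integrable_of_hasCompactSupport (hlaps φ hφc).mul_left
  have hui : Integrable u μ := hu.continuous.integrable_of_hasCompactSupport hc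
  have hval : ∫ w, (G w : ℂ) * dens u w = ∫ x, u x ∂μ := by
    have e1 : ∀ w : ℂ, (G w : ℂ) * dens u w = (((2 * Real.pi)⁻¹ : ℝ) : ℂ) *
        (((G w * (Δ fun x => (u x).re) w : ℝ) : ℂ) +
          Complex.I * ((G w * (Δ fun x => (u x).im) w : ℝ) : ℂ)) := by
      intro w
      unfold dens lapC
      push_cast
      ring
    simp only [e1]
    rw [integral_const_mul, integral_add (hi _ hre hrc).ofReal ((hi _ him hic).ofReal.const_mul _),
      integral_const_mul, integral_complex_ofReal, integral_complex_ofReal]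
    have e2 : ∫ x, u x ∂μ = ((∫ x, (u x).re ∂μ : ℝ) : ℂ) +
        Complex.I * ((∫ x, (u x).im ∂μ : ℝ) : ℂ) := by
      rw [← integral_complex_ofReal, ← integral_complex_ofReal, ← integral_const_mul,
        ← integral_add hui.re.ofReal (hui.im.ofReal.const_mul _)]
      refine integral_congr_ae (Eventually.of_forall fun x => ?_)
      show u x = ((u x).re : ℂ) + Complex.I * ((u x).im : ℂ)
      rw [mul_comm]
      exact (Complex.re_add_im (u x)).symm
    rw [e2, hμ _ hre hrc, hμ _ him hic]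
    push_cast
    ring
  rw [hval] at h
  exact h

/-- the integral against the diagonal coefficient -/
theorem int_diag {k m : ℕ} (S : Current k m) (I : Idx k m) (ρ : Fin k → ℂ → ℂ)
    (hρ : ∀ l, Measurable (ρ l)) :
    ∫ z, (∏ l ∈ I.1, ρ l (z l)) * S.h z I I ∂S.σ = (S.c I : ℂ) * ∏ l ∈ I.1, ∫ x, ρ l x := by
  classical
  have hm : Measurable fun z : Fin k → ℂ => ENNReal.ofReal (S.h z I I).re :=
    (Complex.measurable_re.comp (S.meas I I)).ennreal_ofReal
  have hπ : Measurable fun (z : Fin k → ℂ) (j : {j // j ∈ I.1}) => z j.1 :=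
    measurable_pi_lambda _ fun j => measurable_pi_apply _
  have hf : Measurable fun y : {j // j ∈ I.1} → ℂ => ∏ j, ρ j.1 (y j) :=
    Finset.measurable_prod _ fun j _ => (hρ j.1).comp (measurable_pi_apply j)
  have e1 : ∫ z, (∏ l ∈ I.1, ρ l (z l)) * S.h z I I ∂S.σ =
      ∫ z, (∏ l ∈ I.1, ρ l (z l)) ∂(S.σ.withDensity fun z => ENNReal.ofReal (S.h z I I).re) := by
    rw [integral_withDensity_eq_integral_toReal_smul hm
      (Eventually.of_forall fun z => ENNReal.ofReal_lt_top)]
    refine integral_congr_ae (Eventually.of_forall fun z => ?_)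
    have h0 : 0 ≤ S.h z I I := (S.psd z).diag_nonneg
    rw [Complex.le_def] at h0
    have h2 : S.h z I I = ((S.h z I I).re : ℂ) := by
      apply Complex.ext
      · simp
      · simpa using h0.2.symm
    show (∏ l ∈ I.1, ρ l (z l)) * S.h z I I =
      (ENNReal.ofReal (S.h z I I).re).toReal • ∏ l ∈ I.1, ρ l (z l)
    rw [ENNReal.toReal_ofReal h0.1, Complex.real_smul, ← h2, mul_comm]
  have e2 : ∫ z, (∏ l ∈ I.1, ρ l (z l)) ∂(S.σ.withDensity fun z =>
        ENNReal.ofReal (S.h z I I).re) =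
      ∫ y, (∏ j, ρ j.1 (y j)) ∂((S.σ.withDensity fun z => ENNReal.ofReal (S.h z I I).re).map
        (fun z (j : {j // j ∈ I.1}) => z j.1)) := by
    rw [integral_map hπ.aemeasurable hf.aestronglyMeasurable]
    refine integral_congr_ae (Eventually.of_forall fun z => ?_)
    exact (Finset.prod_coe_sort I.1 (fun j => ρ j (z j))).symm
  rw [e1, e2, S.marg I, integral_smul_measure]
  have e3 : ∫ y : {j // j ∈ I.1} → ℂ, ∏ j, ρ j.1 (y j) = ∏ j : {j // j ∈ I.1}, ∫ x, ρ j.1 x :=
    integral_fintype_prod_volume_eq_prod (fun j : {j // j ∈ I.1} => ρ j.1)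
  rw [e3, Finset.prod_coe_sort I.1 (fun j => ∫ x, ρ j x), ENNReal.coe_toReal]
  rw [Complex.real_smul]

theorem pf_DIA (h1 : T_IT) (h2 : T_UNI) (h3 : T_RU) (h4 : T_INT) (h5 : T_MAR) (h6 : T_FP)
    (h7 : T_MEA) (h8 : T_CON) : T_DIA := by
  intro k m d hd hmk g κ hg G μ hG hμp hμ u hu huc
  classical
  have hd1 : 1 ≤ d := by omega
  have hd0 : (0 : ℝ) < d := by exact_mod_cast hd1
  have hum : ∀ l, Measurable (u l) := fun l => (hu l).continuous.measurable
  have hC1 : ∀ l, ∃ C : ℝ, 0 ≤ C ∧ ∀ (n : ℕ) (z : ℂ),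
      ‖((d : ℂ) ^ n)⁻¹ * (((g l).fib n z).roots.map (u l)).sum - ∫ x, u l x ∂(μ l)‖ ≤
        C * (κ / d) ^ n := fun l => by
    have := hμp l
    exact uni_val hd h2 h3 (g l) κ (hg l) (G l) (μ l) (hG l) (hμ l) (u l) (hu l) (huc l)
  choose C1 hC10 hC1 using hC1
  have hU : ∀ l, ∃ U : ℝ, 0 ≤ U ∧ ∫⁻ x, ‖u l x‖ₑ ≤ ENNReal.ofReal U := by
    intro l
    have hi : Integrable (u l) := (hu l).continuous.integrable_of_hasCompactSupport (huc l)
    refine ⟨(∫⁻ x, ‖u l x‖ₑ).toReal, ENNReal.toReal_nonneg, ?_⟩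
    rw [ENNReal.ofReal_toReal hi.2.ne]
  choose U hU0 hU using hU
  obtain ⟨T, hT⟩ : ∃ T : ℝ, T = 1 + ∑ l, (U l + C1 l + ‖∫ x, u l x ∂(μ l)‖) := ⟨_, rfl⟩
  have hTl : ∀ l, U l + C1 l + ‖∫ x, u l x ∂(μ l)‖ ≤ T := by
    intro l
    have := Finset.single_le_sum (f := fun l => U l + C1 l + ‖∫ x, u l x ∂(μ l)‖)
      (fun i _ => add_nonneg (add_nonneg (hU0 i) (hC10 i)) (norm_nonneg _))
      (Finset.mem_univ l)
    rw [hT]
    linarith
  have hT1 : 1 ≤ T := by
    have : 0 ≤ ∑ l, (U l + C1 l + ‖∫ x, u l x ∂(μ l)‖) := Finset.sum_nonneg fun i _ =>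
      add_nonneg (add_nonneg (hU0 i) (hC10 i)) (norm_nonneg _)
    rw [hT]
    linarith
  have hT0 : 0 ≤ T := by linarith
  refine ⟨k * T ^ k * T ^ k, by positivity, fun S I n => ?_⟩
  -- the factors
  obtain ⟨F, hF⟩ : ∃ F : (Fin k → ℂ) → ℂ, F = fun z =>
      ∏ l ∈ I.1, fac (g l) n True True (u l) (z l) := ⟨_, rfl⟩
  obtain ⟨B, hB⟩ : ∃ B : (Fin k → ℂ) → ℂ, B = fun z =>
      ∏ l ∈ I.1ᶜ, (((d : ℂ) ^ n)⁻¹ * fac (g l) n False False (u l) (z l)) := ⟨_, rfl⟩
  obtain ⟨b, hb⟩ : ∃ b : ℂ, b = ∏ l ∈ I.1ᶜ, ∫ x, u l x ∂(μ l) := ⟨_, rfl⟩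
  have hfout : ∀ l z, fac (g l) n False False (u l) z =
      (((g l).fib n z).roots.map (u l)).sum := by
    intro l z
    unfold fac
    congr 1
    refine Multiset.map_congr rfl fun x _ => ?_
    simp
  have hfin : ∀ l z, fac (g l) n True True (u l) z = (((g l).fib n z).roots.map fun x =>
      u l x / ((g l).der n x * conj ((g l).der n x))).sum := by
    intro l z
    unfold fac
    simp
  have hIc : (I.1ᶜ).card = k - m := by
    rw [Finset.card_compl, Fintype.card_fin, I.2]
  have hpush : ∀ z, pushCoeff g n I I (fun x => ∏ l, u l (x l)) z =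
      F z * (((d : ℂ) ^ ((k - m) * n)) * B z) := by
    intro z
    rw [h6, ← Finset.prod_mul_prod_compl I.1]
    have hn : ((d : ℂ) ^ n) ≠ 0 := pow_ne_zero _ (by exact_mod_cast (by omega : d ≠ 0))
    congr 1
    · rw [hF]
      refine Finset.prod_congr rfl fun l hl => ?_
      unfold fac
      simp [hl]
    · rw [hB]
      simp only
      rw [Finset.prod_mul_distrib, Finset.prod_const, hIc, inv_pow, ← pow_mul, mul_comm n,
        ← mul_assoc, mul_inv_cancel₀ (pow_ne_zero _ (by exact_mod_cast (by omega : d ≠ 0))),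
        one_mul]
      refine Finset.prod_congr rfl fun l hl => ?_
      rw [Finset.mem_compl] at hl
      unfold fac
      simp [hl]
  -- the pairing
  have hdn : ((d : ℂ) ^ ((k - m) * n)) ≠ 0 :=
    pow_ne_zero _ (by exact_mod_cast (by omega : d ≠ 0))
  have hpair : pairing g n S I I (fun x => ∏ l, u l (x l)) =
      ∫ z, F z * B z * S.h z I I ∂S.σ := by
    unfold pairing
    rw [← integral_const_mul]
    refine integral_congr_ae (Eventually.of_forall fun z => ?_)
    simp only
    rw [hpush]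
    field_simp
  -- measurability
  have hFl : ∀ l, Measurable fun z => fac (g l) n True True (u l) z := fun l =>
    fac_meas h1 h7 hd1 (g l) n True True (u l) (hum l)
  have hFm : Measurable F := by
    rw [hF]
    exact Finset.measurable_prod _ fun l _ => (hFl l).comp (measurable_pi_apply l)
  have hBm : Measurable B := by
    rw [hB]
    exact Finset.measurable_prod _ fun l _ =>
      ((fac_meas h1 h7 hd1 (g l) n False False (u l) (hum l)).comp
        (measurable_pi_apply l)).const_mul _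
  -- bound of the absolute integral
  have habs : ∫⁻ z, ‖F z * S.h z I I‖ₑ ∂S.σ ≤ ENNReal.ofReal (S.c I * T ^ k) := by
    have e1 : ∀ z, ‖F z * S.h z I I‖ₑ =
        (∏ l ∈ I.1, ‖fac (g l) n True True (u l) (z l)‖ₑ) * ENNReal.ofReal (S.h z I I).re := by
      intro z
      have h0 : 0 ≤ S.h z I I := (S.psd z).diag_nonneg
      rw [Complex.le_def] at h0
      have h2 : S.h z I I = ((S.h z I I).re : ℂ) := by
        apply Complex.ext
        · simp
        · simpa using h0.2.symm
      rw [enorm_mul, hF]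
      simp only
      rw [enorm_prodC]
      congr 1
      rw [← ofReal_norm]
      conv_lhs => rw [h2]
      rw [Complex.norm_real, Real.norm_of_nonneg h0.1]
    simp only [e1]
    rw [h5 k m S I (fun l x => ‖fac (g l) n True True (u l) x‖ₑ) fun l => (hFl l).enorm]
    rw [ENNReal.ofReal_mul (by positivity), ENNReal.ofReal_coe_nnreal]
    refine mul_le_mul' le_rfl ?_
    have e2 : ∏ j ∈ I.1, ∫⁻ x, ‖fac (g j) n True True (u j) x‖ₑ ≤ ENNReal.ofReal T ^ m := by
      have e3 : ENNReal.ofReal T ^ m = ∏ j ∈ I.1, ENNReal.ofReal T := by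
        rw [Finset.prod_const, I.2]
      rw [e3]
      refine Finset.prod_le_prod' fun l _ => ?_
      refine (fac_in h1 h8 hd1 (g l) n True True trivial trivial (u l) (hum l)).trans
        ((hU l).trans (ENNReal.ofReal_le_ofReal ?_))
      have := hTl l
      have := hC10 l
      have := norm_nonneg (∫ x, u l x ∂(μ l))
      linarith
    refine e2.trans ?_
    rw [← ENNReal.ofReal_pow hT0]
    exact ENNReal.ofReal_le_ofReal (pow_le_pow_right₀ hT1 hmk)
  have hFH : Integrable (fun z => F z * S.h z I I) S.σ :=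
    ⟨(hFm.mul (S.meas I I)).aestronglyMeasurable, lt_of_le_of_lt habs ENNReal.ofReal_lt_top⟩
  have hFHn : ∫ z, ‖F z * S.h z I I‖ ∂S.σ ≤ S.c I * T ^ k := by
    rw [integral_norm_eq_lintegral_enorm hFH.1]
    exact ENNReal.toReal_le_of_le_ofReal (by positivity) habs
  -- the difference
  have hδ0 : 0 ≤ (k : ℝ) * T ^ k * (κ / d) ^ n := by
    rcases Nat.eq_zero_or_pos k with h0 | h0
    · have h0' : (k : ℝ) = 0 := by exact_mod_cast h0
      rw [h0', zero_mul, zero_mul]
    · have hκ1 := (hg ⟨0, h0⟩).1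
      positivity
  have hdiff : ∀ z, ‖B z - b‖ ≤ k * T ^ k * (κ / d) ^ n := by
    intro z
    rcases Finset.eq_empty_or_nonempty (I.1ᶜ) with hem | hne
    · rw [hB, hb, hem]
      simpa using hδ0
    have hδ : 0 ≤ (κ / d) ^ n ∧ (κ / d) ^ n ≤ 1 := by
      obtain ⟨l, -⟩ := hne
      have hκ1 := (hg l).1
      have hκd := (hg l).2.1
      exact ⟨by positivity, pow_le_one₀ (by positivity) ((div_le_one hd0).2 hκd.le)⟩
    have h := prod_sub_prod_le I.1ᶜ
      (fun l => ((d : ℂ) ^ n)⁻¹ * fac (g l) n False False (u l) (z l))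
      (fun l => ∫ x, u l x ∂(μ l)) T ((κ / d) ^ n) hT1 hδ.1 (fun l hl => by
        have e1 := hC1 l n (z l)
        rw [hfout]
        have e2 := norm_sub_norm_le
          (((d : ℂ) ^ n)⁻¹ * (((g l).fib n (z l)).roots.map (u l)).sum) (∫ x, u l x ∂(μ l))
        have e3 := hTl l
        have e4 := hU0 l
        have e5 : C1 l * (κ / d) ^ n ≤ C1 l :=
          mul_le_of_le_one_right (hC10 l) hδ.2
        linarith) (fun l _ => by
        have e3 := hTl l
        have e4 := hU0 l
        have e5 := hC10 l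
        linarith) (fun l _ => by
        rw [hfout]
        refine (hC1 l n (z l)).trans (mul_le_mul_of_nonneg_right ?_ hδ.1)
        have e3 := hTl l
        have e4 := hU0 l
        have e5 := norm_nonneg (∫ x, u l x ∂(μ l))
        linarith)
    rw [hB, hb]
    refine h.trans (mul_le_mul_of_nonneg_right ?_ hδ.1)
    have hck : (I.1ᶜ).card ≤ k := by rw [hIc]; omega
    exact mul_le_mul (by exact_mod_cast hck) (pow_le_pow_right₀ hT1 hck) (by positivity)
      (by positivity)
  -- the limit value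
  have hlim : (S.c I : ℂ) * ∫ x, ∏ l, u l (x l) ∂(limMeas μ I) =
      ∫ z, b * (F z * S.h z I I) ∂S.σ := by
    rw [integral_const_mul]
    have e1 : ∫ z, F z * S.h z I I ∂S.σ = (S.c I : ℂ) * ∏ l ∈ I.1, ∫ x, u l x := by
      rw [hF]
      rw [int_diag S I (fun l => fac (g l) n True True (u l)) hFl]
      congr 1
      refine Finset.prod_congr rfl fun l _ => ?_
      obtain ⟨hP, hQ, hPQ, hc, -⟩ := h1 d hd1 (g l) n
      have hD : 1 ≤ d ^ n := Nat.one_le_pow _ _ hd1
      have hi : Integrable (u l) := (hu l).continuous.integrable_of_hasCompactSupport (huc l)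
      rw [← (h4 (d ^ n) _ _ hD hc hP hQ hPQ (u l) hi).2]
      refine integral_congr_ae (Eventually.of_forall fun z => ?_)
      exact hfin l z
    rw [e1]
    have : ∀ l, SigmaFinite ((fun l => if l ∈ I.1 then (volume : Measure ℂ) else μ l) l) := by
      intro l
      have := hμp l
      simp only
      split_ifs
      · infer_instance
      · infer_instance
    have e2 : ∫ x, ∏ l, u l (x l) ∂(limMeas μ I) =
        ∏ l, ∫ x, u l x ∂((fun l => if l ∈ I.1 then (volume : Measure ℂ) else μ l) l) := by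
      unfold limMeas
      exact integral_fintype_prod_eq_prod
        (μ := fun l => if l ∈ I.1 then (volume : Measure ℂ) else μ l) u
    rw [e2, ← Finset.prod_mul_prod_compl I.1]
    have e3 : ∏ l ∈ I.1, ∫ x, u l x ∂((fun l => if l ∈ I.1 then (volume : Measure ℂ) else μ l) l)
        = ∏ l ∈ I.1, ∫ x, u l x := by
      refine Finset.prod_congr rfl fun l hl => ?_
      simp only [hl, if_true]
    have e4 : ∏ l ∈ I.1ᶜ, ∫ x, u l x
        ∂((fun l => if l ∈ I.1 then (volume : Measure ℂ) else μ l) l)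
        = ∏ l ∈ I.1ᶜ, ∫ x, u l x ∂(μ l) := by
      refine Finset.prod_congr rfl fun l hl => ?_
      rw [Finset.mem_compl] at hl
      simp only [hl, if_false]
    rw [e3, e4, hb]
    ring
  have hbd : Integrable (fun z => F z * B z * S.h z I I) S.σ := by
    have hBb : ∀ z, ‖B z‖ ≤ ‖b‖ + k * T ^ k * (κ / d) ^ n := by
      intro z
      have e1 := hdiff z
      have e2 := norm_sub_norm_le (B z) b
      linarith
    have h := hFH.bdd_mul (c := ‖b‖ + k * T ^ k * (κ / d) ^ n) hBm.aestronglyMeasurable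
      (Eventually.of_forall hBb)
    refine h.congr (Eventually.of_forall fun z => ?_)
    simp only
    ring
  rw [hpair, hlim, ← integral_sub hbd (hFH.const_mul b)]
  have hfinal : ‖∫ z, (F z * B z * S.h z I I - b * (F z * S.h z I I)) ∂S.σ‖ ≤
      ∫ z, (k * T ^ k * (κ / d) ^ n) * ‖F z * S.h z I I‖ ∂S.σ := by
    refine norm_integral_le_of_norm_le (hFH.norm.const_mul _) (Eventually.of_forall fun z => ?_)
    have e1 : F z * B z * S.h z I I - b * (F z * S.h z I I) =
        (B z - b) * (F z * S.h z I I) := by ring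
    rw [e1, norm_mul]
    exact mul_le_mul_of_nonneg_right (hdiff z) (norm_nonneg _)
  refine hfinal.trans ?_
  rw [integral_const_mul]
  calc (k * T ^ k * (κ / d) ^ n) * ∫ z, ‖F z * S.h z I I‖ ∂S.σ
      ≤ (k * T ^ k * (κ / d) ^ n) * (S.c I * T ^ k) :=
        mul_le_mul_of_nonneg_left hFHn hδ0
    _ = _ := by ring

end Pool.Agent.H43.UDA
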