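import Pool.Agent.H83.UE.Targets

/-!
MP_75a732_an, board uda_modules, row SIM: all but finitely many fibres are simple.
-/

set_option autoImplicit false

open Polynomial MeasureTheory Filter Topology Set
open scoped OnePoint ComplexConjugate ComplexOrder Laplacian ENNReal
open Pool.Agent.H83.UE

namespace Pool.Agent.H43.UDA

theorem natDegree_zero_of_dvd_derivative {P : ℂ[X]} (h : P ∣ derivative P) :
    P.natDegree = 0 := by
  by_contra h0
  have h1 := natDegree_derivative_lt h0
  have h2 : derivative P ≠ 0 := fun h3 => h0 (derivative_eq_zero.1 h3)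
  have h3 := natDegree_le_of_dvd h h2
  omega

theorem wronskian_ne {D : ℕ} {P Q : ℂ[X]} (hD : 1 ≤ D) (hc : IsCoprime P Q)
    (hd : P.natDegree = D ∨ Q.natDegree = D) :
    derivative P * Q - P * derivative Q ≠ 0 := by
  intro h
  have h1 : P ∣ derivative P := by
    refine hc.dvd_of_dvd_mul_right ⟨derivative Q, ?_⟩
    linear_combination h
  have h2 : Q ∣ derivative Q := by
    refine hc.symm.dvd_of_dvd_mul_left ⟨derivative P, ?_⟩
    linear_combination - h
  have h3 := natDegree_zero_of_dvd_derivative h1
  have h4 := natDegree_zero_of_dvd_derivative h2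
  omega

theorem Q_ne_of_root {P Q : ℂ[X]} (hc : IsCoprime P Q) {z x : ℂ}
    (hx : P.eval x = z * Q.eval x) : Q.eval x ≠ 0 := by
  intro h0
  obtain ⟨a, b, hab⟩ := hc
  have h1 := congrArg (eval x) hab
  rw [eval_add, eval_mul, eval_mul, eval_one, hx, h0] at h1
  simp at h1

theorem fib_ne_zero {D : ℕ} {P Q : ℂ[X]} (hD : 1 ≤ D) (hc : IsCoprime P Q)
    (hd : P.natDegree = D ∨ Q.natDegree = D) (z : ℂ) : P - C z * Q ≠ 0 := by
  intro h
  have h1 : P = C z * Q := sub_eq_zero.1 h
  apply wronskian_ne hD hc hd
  rw [h1, derivative_C_mul]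
  ring

theorem deriv_quot {P Q : ℂ[X]} {x : ℂ} (hx : Q.eval x ≠ 0) :
    deriv (fun y => P.eval y / Q.eval y) x =
      (derivative P * Q - P * derivative Q).eval x / Q.eval x ^ 2 := by
  have h1 : HasDerivAt (fun y => P.eval y / Q.eval y)
      ((eval x (derivative P) * eval x Q - eval x P * eval x (derivative Q)) / eval x Q ^ 2) x :=
    (P.hasDerivAt x).div (Q.hasDerivAt x) hx
  rw [h1.deriv, eval_sub, eval_mul, eval_mul]

theorem pf_SIM : T_SIM := by
  intro D P Q hD hc hP hQ hd
  classical
  have hW := wronskian_ne hD hc hd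
  refine ⟨((derivative P * Q - P * derivative Q).roots.toFinset.image fun x =>
    P.eval x / Q.eval x) ∪ {P.coeff D / Q.coeff D}, fun z hz => ?_⟩
  rw [Finset.mem_union, not_or, Finset.mem_singleton] at hz
  obtain ⟨hz1, hz2⟩ := hz
  have hf := fib_ne_zero hD hc hd z
  have hroot : ∀ x ∈ (P - C z * Q).roots, P.eval x = z * Q.eval x := by
    intro x hx
    have h1 := (mem_roots hf).1 hx
    rw [IsRoot.def, eval_sub, eval_mul, eval_C] at h1
    exact sub_eq_zero.1 h1
  have hWx : ∀ x ∈ (P - C z * Q).roots,
      (derivative P * Q - P * derivative Q).eval x ≠ 0 := by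
    intro x hx h0
    apply hz1
    rw [Finset.mem_image]
    refine ⟨x, ?_, ?_⟩
    · rw [Multiset.mem_toFinset, mem_roots hW]; exact h0
    · rw [hroot x hx]
      exact mul_div_cancel_right₀ z (Q_ne_of_root hc (hroot x hx))
  refine ⟨?_, ?_, ?_⟩
  · rw [Multiset.nodup_iff_count_le_one]
    intro x
    rw [count_roots]
    by_contra hlt
    have h1 := (one_lt_rootMultiplicity_iff_isRoot hf).1 (not_le.1 hlt)
    have hx : x ∈ (P - C z * Q).roots := (mem_roots hf).2 h1.1
    apply hWx x hx
    have h2 := h1.2
    rw [IsRoot.def, derivative_sub, derivative_C_mul, eval_sub, eval_mul, eval_C] at h2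
    rw [eval_sub, eval_mul, eval_mul, hroot x hx]
    linear_combination (eval x Q) * h2
  · have hcoeff : (P - C z * Q).coeff D ≠ 0 := by
      rw [coeff_sub, coeff_C_mul]
      intro h0
      by_cases hq : Q.coeff D = 0
      · rw [hq, mul_zero, sub_zero] at h0
        rcases hd with hd | hd
        · rw [← hd, coeff_natDegree, leadingCoeff_eq_zero] at h0
          rw [h0, natDegree_zero] at hd
          omega
        · rw [← hd, coeff_natDegree, leadingCoeff_eq_zero] at hq
          rw [hq, natDegree_zero] at hd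
          omega
      · apply hz2
        rw [eq_div_iff hq]
        linear_combination -h0
    have hdeg : (P - C z * Q).natDegree = D := by
      apply le_antisymm
      · refine le_trans (natDegree_sub_le _ _) (max_le hP ?_)
        exact le_trans (natDegree_C_mul_le _ _) hQ
      · exact le_natDegree_of_ne_zero hcoeff
    rw [← hdeg]
    exact (splits_iff_card_roots.1 (IsAlgClosed.splits _))
  · intro x hx
    have hQx := Q_ne_of_root hc (hroot x hx)
    refine ⟨hQx, ?_⟩
    rw [deriv_quot hQx]
    exact div_ne_zero (hWx x hx) (pow_ne_zero 2 hQx)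

end Pool.Agent.H43.UDA
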