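import Pool.Agent.H47.UDA.OFF

/-!
MP_75a732_an, board uda_modules, row BD: bound for the pairings.
-/

set_option autoImplicit false

open Polynomial MeasureTheory Filter Topology Set
open scoped OnePoint ComplexConjugate ComplexOrder Laplacian ENNReal
open Pool.Agent.H83.UE Pool.Agent.H47.UDA

namespace Pool.Agent.H43.UDA

section

variable {d : ℕ}

theorem it_pos (h1 : T_IT) (hd : 1 ≤ d) (g : RatMap d) (n : ℕ) :
    0 < (g.it n).1.natDegree ∨ 0 < (g.it n).2.natDegree := by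
  obtain ⟨hP, hQ, hPQ, hc, -⟩ := h1 d hd g n
  have hD : 1 ≤ d ^ n := Nat.one_le_pow _ _ hd
  rcases hPQ with h | h
  · left; omega
  · right; omega

theorem nfac_out (h1 : T_IT) (hd : 1 ≤ d) (g : RatMap d) (n : ℕ) (a b : Prop) [Decidable a]
    [Decidable b] (ha : ¬ a) (hb : ¬ b) (u : ℂ → ℝ≥0∞) (hu : ∀ x, u x ≤ 1) (z : ℂ) :
    nfac g n a b u z ≤ (d : ℝ≥0∞) ^ n := by
  unfold nfac
  have h := Multiset.sum_le_card_nsmul ((g.fib n z).roots.map fun x =>
    u x / ((if a then ‖g.der n x‖ₑ else 1) * (if b then ‖g.der n x‖ₑ else 1))) 1 (by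
      intro y hy
      obtain ⟨x, -, rfl⟩ := Multiset.mem_map.1 hy
      rw [if_neg ha, if_neg hb, mul_one, div_one]
      exact hu x)
  refine h.trans ?_
  rw [Multiset.card_map, nsmul_eq_mul, mul_one]
  exact_mod_cast card_roots_le h1 hd g n z

theorem nfac_in (h1 : T_IT) (h2 : T_CON) (hd : 1 ≤ d) (g : RatMap d) (n : ℕ) (a b : Prop)
    [Decidable a] [Decidable b] (ha : a) (hb : b) (u : ℂ → ℝ≥0∞) (hu : Measurable u) :
    ∫⁻ z, nfac g n a b u z ≤ ∫⁻ x, u x := by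
  obtain ⟨hP, hQ, hPQ, hc, -⟩ := h1 d hd g n
  have hD : 1 ≤ d ^ n := Nat.one_le_pow _ _ hd
  have h := (h2 (d ^ n) _ _ hD hc hP hQ hPQ u hu).2
  refine le_trans (le_of_eq (lintegral_congr fun z => ?_)) h
  unfold nfac
  change ((g.fib n z).roots.map _).sum = ((g.fib n z).roots.map _).sum
  congr 1
  refine Multiset.map_congr rfl fun x _ => ?_
  rw [if_pos ha, if_pos hb]
  change _ = u x / ‖g.der n x‖ₑ ^ 2
  rw [pow_two]

theorem nfac_symm (h1 : T_IT) (h2 : T_CON) (hd : 1 ≤ d) (g : RatMap d) (n : ℕ) (a b : Prop)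
    [Decidable a] [Decidable b] (hab : (a ∧ ¬ b) ∨ (b ∧ ¬ a)) (u : ℂ → ℝ≥0∞)
    (hu : Measurable u) :
    ∫⁻ z, nfac g n a b u z ^ 2 ≤ (d : ℝ≥0∞) ^ n * ∫⁻ x, u x ^ 2 := by
  obtain ⟨hP, hQ, hPQ, hc, -⟩ := h1 d hd g n
  have hD : 1 ≤ d ^ n := Nat.one_le_pow _ _ hd
  have h := (h2 (d ^ n) _ _ hD hc hP hQ hPQ u hu).1
  push_cast at h
  refine le_trans (le_of_eq (lintegral_congr fun z => ?_)) h
  unfold nfac
  change ((g.fib n z).roots.map _).sum ^ 2 = ((g.fib n z).roots.map _).sum ^ 2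
  congr 2
  refine Multiset.map_congr rfl fun x _ => ?_
  change _ = u x / ‖g.der n x‖ₑ
  rcases hab with ⟨ha, hb⟩ | ⟨hb, ha⟩
  · rw [if_pos ha, if_neg hb, mul_one]
  · rw [if_pos hb, if_neg ha, one_mul]

theorem nfac_meas (h1 : T_IT) (h6 : T_MEA) (hd : 1 ≤ d) (g : RatMap d) (n : ℕ) (a b : Prop)
    [Decidable a] [Decidable b] (u : ℂ → ℝ≥0∞) (hu : Measurable u) :
    Measurable fun z => nfac g n a b u z := by
  obtain ⟨hP, hQ, hPQ, hc, -⟩ := h1 d hd g n
  refine (h6 _ _ hc (it_pos h1 hd g n)).1 (fun x => u x / ((if a then ‖g.der n x‖ₑ else 1) *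
    (if b then ‖g.der n x‖ₑ else 1))) ?_
  have hder : Measurable fun x => ‖g.der n x‖ₑ := (measurable_deriv _).enorm
  refine hu.div (Measurable.mul ?_ ?_)
  · by_cases h : a
    · simp only [h, if_true]; exact hder
    · simp only [h, if_false]; exact measurable_const
  · by_cases h : b
    · simp only [h, if_true]; exact hder
    · simp only [h, if_false]; exact measurable_const

end

theorem pushCoeff_smul {k m d : ℕ} (g : Fin k → RatMap d) (n : ℕ) (I J : Idx k m)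
    (χ : (Fin k → ℂ) → ℂ) (c : ℂ) (z : Fin k → ℂ) :
    pushCoeff g n I J (fun x => c * χ x) z = c * pushCoeff g n I J χ z := by
  unfold pushCoeff fibSum
  rw [Finset.mul_sum]
  refine Finset.sum_congr rfl fun x _ => ?_
  ring

theorem num_bd (T : ℝ) (d k m n a s r : ℕ) (hT : 1 ≤ T) (hd : 1 ≤ d)
    (har : a + r = k - m) (hk : s + r ≤ k) :
    ((d : ℝ) ^ ((k - m) * n))⁻¹ * (((d : ℝ) ^ n) ^ a * T ^ s * ((d : ℝ) ^ n * T) ^ r) ≤
      T ^ k := by
  have hd : (0 : ℝ) < d := by exact_mod_cast hd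
  have h1 : ((d : ℝ) ^ ((k - m) * n))⁻¹ * (((d : ℝ) ^ n) ^ a * T ^ s * ((d : ℝ) ^ n * T) ^ r) =
      T ^ (s + r) := by
    rw [← har, mul_pow, pow_add T, ← pow_mul, ← pow_mul, add_mul, pow_add, mul_comm n a,
      mul_comm n r]
    field_simp
  rw [h1]
  exact pow_le_pow_right₀ hT hk

theorem pf_BD (h1 : T_IT) (h2 : T_SIM) (h3 : T_CON) (h4 : T_CS) (h5 : T_FB) (h6 : T_NUL)
    (h7 : T_MEC) (h8 : T_MEA) : T_BD := by
  intro k m d hd hmk g R
  have hd1 : 1 ≤ d := by omega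
  obtain ⟨T, hT⟩ : ∃ T : ℝ, T = 1 + (volume (Metric.ball (0 : ℂ) R)).toReal := ⟨_, rfl⟩
  have hT1 : 1 ≤ T := by
    rw [hT]
    have : 0 ≤ (volume (Metric.ball (0 : ℂ) R)).toReal := ENNReal.toReal_nonneg
    linarith
  have hT0 : 0 ≤ T := by linarith
  have hvT : volume (Metric.ball (0 : ℂ) R) ≤ ENNReal.ofReal T := by
    have hfin : volume (Metric.ball (0 : ℂ) R) ≠ ⊤ := measure_ball_lt_top.ne
    rw [← ENNReal.ofReal_toReal hfin]
    exact ENNReal.ofReal_le_ofReal (by rw [hT]; linarith)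
  refine ⟨T ^ k, by positivity, fun S I J n ε χ hε hχ hb hz => ?_⟩
  -- the majorant
  obtain ⟨θ, hθ⟩ : ∃ θ : ℂ → ℝ≥0∞, θ = (Metric.ball (0 : ℂ) R).indicator (fun _ => 1) :=
    ⟨_, rfl⟩
  have hθm : Measurable θ := by
    rw [hθ]; exact measurable_const.indicator measurableSet_ball
  have hθ1 : ∀ x, θ x ≤ 1 := by
    intro x
    rw [hθ]
    exact indicator_le_self' (fun _ _ => zero_le) x
  have hθin : ∀ x : ℂ, ‖x‖ < R → θ x = 1 := by
    intro x hx
    rw [hθ, indicator_of_mem (mem_ball_zero_iff.2 hx)]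
  have hθi : ∫⁻ x, θ x ≤ ENNReal.ofReal T := by
    rw [hθ, lintegral_indicator_const measurableSet_ball, one_mul]
    exact hvT
  have hθi2 : ∫⁻ x, θ x ^ 2 ≤ ENNReal.ofReal T := by
    refine le_trans (lintegral_mono fun x => ?_) hθi
    rw [pow_two]
    calc θ x * θ x ≤ θ x * 1 := mul_le_mul' le_rfl (hθ1 x)
      _ = θ x := mul_one _
  -- the exceptional sets
  have hE : ∀ l, ∃ E : Finset ℂ, ∀ z, z ∉ E → ∀ x ∈ ((g l).fib n z).roots,
      (g l).der n x ≠ 0 := by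
    intro l
    obtain ⟨hP, hQ, hPQ, hc, -⟩ := h1 d hd1 (g l) n
    have hD : 1 ≤ d ^ n := Nat.one_le_pow _ _ hd1
    obtain ⟨E, hE⟩ := h2 (d ^ n) _ _ hD hc hP hQ hPQ
    exact ⟨E, fun z hz x hx => ((hE z hz).2.2 x hx).2⟩
  choose E hE using hE
  have hae : ∀ᵐ z ∂S.σ, ∀ l, (l ∈ I.1 ∨ l ∈ J.1) → z l ∈ E l → S.h z I J = 0 := by
    rw [ae_all_iff]
    intro l
    by_cases hl : l ∈ I.1 ∨ l ∈ J.1
    · filter_upwards [h6 k m S I J l (E l) hl] with z hz _ using hz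
    · exact Eventually.of_forall fun z h => absurd h hl
  have hpt : ∀ᵐ z ∂S.σ, ‖pushCoeff g n I J χ z * S.h z I J‖ₑ ≤ ENNReal.ofReal ε *
      ((∏ l, nfac (g l) n (l ∈ I.1) (l ∈ J.1) θ (z l)) * ‖S.h z I J‖ₑ) := by
    filter_upwards [hae] with z hz0
    by_cases h0 : S.h z I J = 0
    · rw [h0, mul_zero, enorm_zero]; exact bot_le
    · have hder : ∀ l, (l ∈ I.1 ∨ l ∈ J.1) → ∀ x ∈ ((g l).fib n (z l)).roots,
          (g l).der n x ≠ 0 := fun l hl => hE l (z l) fun h => h0 (hz0 l hl h)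
      rw [enorm_mul, ← mul_assoc]
      refine mul_le_mul' ?_ le_rfl
      rcases eq_or_lt_of_le hε with he | he
      · have hχ0 : χ = fun x => (0 : ℂ) * 0 := by
          funext x
          have := hb x
          rw [← he] at this
          rw [norm_le_zero_iff.1 this, mul_zero]
        rw [hχ0, pushCoeff_smul, zero_mul, enorm_zero]
        exact bot_le
      · have he' : (ε : ℂ) ≠ 0 := Complex.ofReal_ne_zero.2 he.ne'
        have hχ1 : χ = fun x => (ε : ℂ) * ((ε : ℂ)⁻¹ * χ x) := by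
          funext x
          rw [← mul_assoc, mul_inv_cancel₀ he', one_mul]
        have hfb := h5 k m d g n I J (fun x => (ε : ℂ)⁻¹ * χ x) (fun _ => θ) (by
          intro x
          by_cases hx : ∃ l, R ≤ ‖x l‖
          · rw [hz x hx, mul_zero, enorm_zero]; exact bot_le
          · push Not at hx
            have hp : ∏ l, θ (x l) = 1 := Finset.prod_eq_one fun l _ => hθin _ (hx l)
            rw [hp, ← ofReal_norm, ← ENNReal.ofReal_one]
            apply ENNReal.ofReal_le_ofReal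
            rw [norm_mul, norm_inv, Complex.norm_real, Real.norm_of_nonneg hε,
              inv_mul_le_iff₀ he, mul_one]
            exact hb x) z hder
        rw [hχ1, pushCoeff_smul, enorm_mul]
        refine mul_le_mul' (le_of_eq ?_) hfb
        rw [← ofReal_norm, Complex.norm_real, Real.norm_of_nonneg hε]
  -- sizes
  obtain ⟨r, hr⟩ : ∃ r, r = (I.1 \ J.1).card := ⟨_, rfl⟩
  obtain ⟨s, hs⟩ : ∃ s, s = (I.1 ∩ J.1).card := ⟨_, rfl⟩
  obtain ⟨a, ha⟩ : ∃ a, a = ((I.1 ∪ J.1)ᶜ : Finset (Fin k)).card := ⟨_, rfl⟩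
  have hIm := I.2
  have hJm := J.2
  have hrs : r + s = m := by
    rw [hr, hs]
    exact (Finset.card_sdiff_add_card_inter I.1 J.1).trans hIm
  have hrs' : (J.1 \ I.1).card + s = m := by
    rw [hs, Finset.inter_comm]
    exact (Finset.card_sdiff_add_card_inter J.1 I.1).trans hJm
  have hr2 : (J.1 \ I.1).card = r := by omega
  have hun : (I.1 ∪ J.1).card = m + r := by
    have := Finset.card_union_add_card_inter I.1 J.1
    rw [← hs] at this
    omega
  have hak : a + (m + r) = k := by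
    have := Finset.card_compl_add_card (I.1 ∪ J.1)
    rw [Fintype.card_fin, hun] at this
    rw [ha]
    exact this
  have hsym : (symmDiff I.1 J.1).card = 2 * r := by
    rw [symmDiff_def, Finset.sup_eq_union, Finset.card_union_of_disjoint]
    · rw [hr2, ← hr]
      ring
    · exact disjoint_sdiff_sdiff
  -- Cauchy-Schwarz
  have hcs := h4 k m S I J
    (fun l x => nfac (g l) n (l ∈ I.1) (l ∈ J.1) θ x)
    (fun _ => (d : ℝ≥0∞) ^ n)
    (fun l => nfac_meas h1 h8 hd1 (g l) n _ _ θ hθm)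
    (fun l x hlI hlJ => nfac_out h1 hd1 (g l) n _ _ hlI hlJ θ hθ1 x)
  have hA1 : ∏ l ∈ (I.1 ∪ J.1)ᶜ, (d : ℝ≥0∞) ^ n = ((d : ℝ≥0∞) ^ n) ^ a := by
    rw [Finset.prod_const, ha]
  have hA2 : ∏ l ∈ I.1 ∩ J.1, ∫⁻ x, nfac (g l) n (l ∈ I.1) (l ∈ J.1) θ x ≤
      ENNReal.ofReal T ^ s := by
    rw [hs, ← Finset.prod_const]
    refine Finset.prod_le_prod' fun l hl => ?_
    rw [Finset.mem_inter] at hl
    exact (nfac_in h1 h3 hd1 (g l) n _ _ hl.1 hl.2 θ hθm).trans hθi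
  have hA3 : ∏ l ∈ symmDiff I.1 J.1,
      (∫⁻ x, nfac (g l) n (l ∈ I.1) (l ∈ J.1) θ x ^ 2) ^ (1 / 2 : ℝ) ≤
      ((d : ℝ≥0∞) ^ n * ENNReal.ofReal T) ^ r := by
    rw [← rpow_half_pow, ← hsym, ← Finset.prod_const]
    refine Finset.prod_le_prod' fun l hl => ?_
    refine ENNReal.rpow_le_rpow ?_ (by norm_num)
    refine (nfac_symm h1 h3 hd1 (g l) n _ _ ?_ θ hθm).trans (mul_le_mul' le_rfl hθi2)
    rcases Finset.mem_symmDiff.1 hl with h | h
    · exact Or.inl h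
    · exact Or.inr h
  have hint : ∫⁻ z, ‖pushCoeff g n I J χ z * S.h z I J‖ₑ ∂S.σ ≤ ENNReal.ofReal ε *
      (((S.c I : ℝ≥0∞) * S.c J) ^ (1 / 2 : ℝ) *
        (((d : ℝ≥0∞) ^ n) ^ a * ENNReal.ofReal T ^ s *
          ((d : ℝ≥0∞) ^ n * ENNReal.ofReal T) ^ r)) := by
    refine (lintegral_mono_ae hpt).trans ?_
    rw [lintegral_const_mul' _ _ ENNReal.ofReal_ne_top]
    refine mul_le_mul' le_rfl (hcs.trans ?_)
    rw [hA1]
    exact mul_le_mul' le_rfl (mul_le_mul' (mul_le_mul' le_rfl hA2) hA3)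
  have hreal : ENNReal.ofReal ε *
      (((S.c I : ℝ≥0∞) * S.c J) ^ (1 / 2 : ℝ) *
        (((d : ℝ≥0∞) ^ n) ^ a * ENNReal.ofReal T ^ s *
          ((d : ℝ≥0∞) ^ n * ENNReal.ofReal T) ^ r)) =
      ENNReal.ofReal (ε * (Real.sqrt (S.c I * S.c J) *
        (((d : ℝ) ^ n) ^ a * T ^ s * ((d : ℝ) ^ n * T) ^ r))) := by
    have e1 : ((S.c I : ℝ≥0∞) * S.c J) ^ (1 / 2 : ℝ) =
        ENNReal.ofReal (Real.sqrt (S.c I * S.c J)) := by
      rw [Real.sqrt_eq_rpow, ← ENNReal.ofReal_rpow_of_nonneg (by positivity) (by norm_num),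
        ENNReal.ofReal_mul (by positivity), ENNReal.ofReal_coe_nnreal, ENNReal.ofReal_coe_nnreal]
    have e2 : (d : ℝ≥0∞) ^ n = ENNReal.ofReal ((d : ℝ) ^ n) := by
      rw [ENNReal.ofReal_pow (by positivity), ENNReal.ofReal_natCast]
    rw [e1, e2, ← ENNReal.ofReal_mul (by positivity), ← ENNReal.ofReal_pow (by positivity),
      ← ENNReal.ofReal_pow hT0, ← ENNReal.ofReal_pow (by positivity),
      ← ENNReal.ofReal_mul (by positivity), ← ENNReal.ofReal_mul (by positivity),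
      ← ENNReal.ofReal_mul (by positivity), ← ENNReal.ofReal_mul (by positivity)]
  rw [hreal] at hint
  refine ⟨⟨?_, ?_⟩, ?_⟩
  · have hcs : HasCompactSupport χ := by
      refine HasCompactSupport.intro (K := Set.pi Set.univ fun _ => Metric.closedBall (0 : ℂ) R)
        (isCompact_univ_pi fun _ => isCompact_closedBall _ _) fun x hx => ?_
      rw [Set.mem_univ_pi] at hx
      push Not at hx
      obtain ⟨l, hl⟩ := hx
      rw [mem_closedBall_zero_iff, not_le] at hl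
      exact hz x ⟨l, hl.le⟩
    exact ((h7 k m d hd1 g n I J χ hχ hcs).mul (S.meas I J)).aestronglyMeasurable
  · exact lt_of_le_of_lt hint ENNReal.ofReal_lt_top
  · have hnn : 0 ≤ Real.sqrt (S.c I * S.c J) := Real.sqrt_nonneg _
    have hpair : ‖pairing g n S I J χ‖ₑ ≤ ENNReal.ofReal (((d : ℝ) ^ ((k - m) * n))⁻¹ *
        (ε * (Real.sqrt (S.c I * S.c J) *
        (((d : ℝ) ^ n) ^ a * T ^ s * ((d : ℝ) ^ n * T) ^ r)))) := by
      unfold pairing
      rw [enorm_mul, ENNReal.ofReal_mul (by positivity)]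
      refine mul_le_mul' (le_of_eq ?_) ?_
      · rw [← ofReal_norm]
        congr 1
        rw [norm_inv, norm_pow, Complex.norm_natCast]
      · exact (enorm_integral_le_lintegral_enorm _).trans hint
    rw [← ofReal_norm] at hpair
    have hfin := (ENNReal.ofReal_le_ofReal_iff (by positivity)).1 hpair
    refine hfin.trans ?_
    have hnum := num_bd T d k m n a s r hT1 hd1 (by omega) (by omega)
    calc ((d : ℝ) ^ ((k - m) * n))⁻¹ * (ε * (Real.sqrt (S.c I * S.c J) *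
          (((d : ℝ) ^ n) ^ a * T ^ s * ((d : ℝ) ^ n * T) ^ r))) =
        (ε * Real.sqrt (S.c I * S.c J)) * (((d : ℝ) ^ ((k - m) * n))⁻¹ *
          (((d : ℝ) ^ n) ^ a * T ^ s * ((d : ℝ) ^ n * T) ^ r)) := by ring
      _ ≤ (ε * Real.sqrt (S.c I * S.c J)) * T ^ k :=
        mul_le_mul_of_nonneg_left hnum (mul_nonneg hε hnn)
      _ = _ := by ring

end Pool.Agent.H43.UDA
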