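import Pool.Agent.H43.UDA.SIM

/-!
MP_75a732_an, board uda_modules, row DV: derivative of the sum over the fibre.
-/

set_option autoImplicit false

open Polynomial MeasureTheory Filter Topology Set
open scoped OnePoint ComplexConjugate ComplexOrder Laplacian ENNReal
open Pool.Agent.H83.UE

namespace Pool.Agent.H43.UDA

/-- local branches of the inverse -/
theorem branch {P Q : ℂ[X]} {z₀ x : ℂ} (hQ : Q.eval x ≠ 0) (hPx : P.eval x = z₀ * Q.eval x)
    (hd : deriv (fun y => P.eval y / Q.eval y) x ≠ 0) :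
    ∃ ξ : ℂ → ℂ, ξ z₀ = x ∧ HasDerivAt ξ (deriv (fun y => P.eval y / Q.eval y) x)⁻¹ z₀ ∧
      ∀ᶠ z in 𝓝 z₀, P.eval (ξ z) = z * Q.eval (ξ z) := by
  have hval : P.eval x / Q.eval x = z₀ := by rw [hPx, mul_div_cancel_right₀ _ hQ]
  have hs : HasStrictDerivAt (fun y => P.eval y / Q.eval y)
      (deriv (fun y => P.eval y / Q.eval y) x) x := by
    have h1 : HasStrictDerivAt (fun y => P.eval y / Q.eval y)
        ((eval x (derivative P) * eval x Q - eval x P * eval x (derivative Q)) / eval x Q ^ 2) x :=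
      (P.hasStrictDerivAt x).div (Q.hasStrictDerivAt x) hQ
    rw [h1.hasDerivAt.deriv]
    exact h1
  have hloc := hs.to_localInverse hd
  have hev := hs.eventually_right_inverse hd
  have h0 : hs.localInverse _ _ _ hd (P.eval x / Q.eval x) = x :=
    (hs.hasStrictFDerivAt_equiv hd).localInverse_apply_image
  simp only [hval] at hloc hev h0
  refine ⟨hs.localInverse _ _ _ hd, h0, hloc.hasDerivAt, ?_⟩
  have hc : ContinuousAt (fun z => Q.eval (hs.localInverse _ _ _ hd z)) z₀ :=
    ContinuousAt.comp (g := fun y => Q.eval y) Q.continuous.continuousAt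
      hloc.hasDerivAt.continuousAt
  have hne : ∀ᶠ z in 𝓝 z₀, Q.eval (hs.localInverse _ _ _ hd z) ≠ 0 := by
    apply hc.eventually_ne
    rw [h0]; exact hQ
  filter_upwards [hev, hne] with z hz1 hz2
  rw [div_eq_iff hz2] at hz1
  exact hz1

theorem pf_DV : T_DV := by
  intro D P Q hD hc hP hQ hd z₀ hnd hcard hreg U hU
  classical
  have hf := fib_ne_zero hD hc hd z₀
  have hroot : ∀ x ∈ (P - C z₀ * Q).roots, P.eval x = z₀ * Q.eval x := by
    intro x hx
    have h1 := (mem_roots hf).1 hx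
    rw [IsRoot.def, eval_sub, eval_mul, eval_C] at h1
    exact sub_eq_zero.1 h1
  set S : Finset ℂ := (P - C z₀ * Q).roots.toFinset with hSdef
  have hSval : S.val = (P - C z₀ * Q).roots := by
    rw [hSdef, Multiset.toFinset_val]
    exact Multiset.dedup_eq_self.2 hnd
  have hmem : ∀ x ∈ S, x ∈ (P - C z₀ * Q).roots := fun x hx => Multiset.mem_toFinset.1 hx
  have hbr : ∀ x ∈ S, ∃ ξ : ℂ → ℂ, ξ z₀ = x ∧
      HasDerivAt ξ (deriv (fun y => P.eval y / Q.eval y) x)⁻¹ z₀ ∧
      ∀ᶠ z in 𝓝 z₀, P.eval (ξ z) = z * Q.eval (ξ z) := fun x hx =>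
    branch (hreg x (hmem x hx)).1 (hroot x (hmem x hx)) (hreg x (hmem x hx)).2
  choose! ξ h0 h1 h2 using hbr
  have hinj : ∀ᶠ z in 𝓝 z₀, ∀ x ∈ S, ∀ y ∈ S, x ≠ y → ξ x z ≠ ξ y z := by
    refine (Filter.eventually_all_finset S).2 fun x hx => ?_
    refine (Filter.eventually_all_finset S).2 fun y hy => ?_
    by_cases hxy : x = y
    · exact Filter.Eventually.of_forall fun z h => absurd hxy h
    · have hne : ξ x z₀ ≠ ξ y z₀ := by rw [h0 x hx, h0 y hy]; exact hxy
      have := ((h1 x hx).continuousAt.sub (h1 y hy).continuousAt).eventually_ne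
        (sub_ne_zero.2 hne)
      filter_upwards [this] with z hz _ using sub_ne_zero.1 hz
  have hrts : ∀ᶠ z in 𝓝 z₀, ∀ x ∈ S, P.eval (ξ x z) = z * Q.eval (ξ x z) :=
    (Filter.eventually_all_finset S).2 fun x hx => h2 x hx
  have hkey : ∀ᶠ z in 𝓝 z₀, ((P - C z * Q).roots.map U).sum = ∑ x ∈ S, U (ξ x z) := by
    filter_upwards [hinj, hrts] with z hz1 hz2
    have hfz := fib_ne_zero hD hc hd z
    have hM : S.val.map (fun x => ξ x z) = (P - C z * Q).roots := by
      apply Multiset.eq_of_le_of_card_le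
      · rw [Multiset.le_iff_subset]
        · intro w hw
          obtain ⟨x, hx, rfl⟩ := Multiset.mem_map.1 hw
          rw [mem_roots hfz, IsRoot.def, eval_sub, eval_mul, eval_C, hz2 x hx, sub_self]
        · refine Multiset.Nodup.map_on ?_ S.nodup
          intro x hx y hy hxy
          by_contra hne
          exact hz1 x hx y hy hne hxy
      · rw [Multiset.card_map, hSval, hcard]
        refine le_trans (card_roots' _) ?_
        refine le_trans (natDegree_sub_le _ _) (max_le hP ?_)
        exact le_trans (natDegree_C_mul_le _ _) hQ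
    rw [← hM, Multiset.map_map]
    rfl
  have hder : ∀ x ∈ S, HasFDerivAt (fun z => U (ξ x z))
      ((fderiv ℝ U x).comp ((ContinuousLinearMap.toSpanSingleton ℂ
        (deriv (fun y => P.eval y / Q.eval y) x)⁻¹).restrictScalars ℝ)) z₀ := by
    intro x hx
    have e1 : HasFDerivAt U (fderiv ℝ U x) (ξ x z₀) := by
      rw [h0 x hx]
      exact (hU.differentiable (by norm_num) x).hasFDerivAt
    have e2 := (h1 x hx).hasFDerivAt.restrictScalars ℝ
    exact e1.comp z₀ e2
  refine ⟨∑ x ∈ S, (fderiv ℝ U x).comp ((ContinuousLinearMap.toSpanSingleton ℂ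
        (deriv (fun y => P.eval y / Q.eval y) x)⁻¹).restrictScalars ℝ), ?_, ?_⟩
  · exact (HasFDerivAt.fun_sum hder).congr_of_eventuallyEq hkey
  · intro ζ
    rw [_root_.sum_apply, ← hSval]
    show _ = ∑ x ∈ S, _
    refine Finset.sum_congr rfl fun x _ => ?_
    rw [ContinuousLinearMap.comp_apply, ContinuousLinearMap.coe_restrictScalars',
      ContinuousLinearMap.toSpanSingleton_apply, smul_eq_mul, div_eq_mul_inv]

end Pool.Agent.H43.UDA
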