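import Pool.Agent.H83.UE.Targets
import Pool.Agent.H20.LIM.All

/-!
MP_75a732_an, board uda_modules, row RU: compactly supported functions of class `C^2` are
logarithmic potentials.
-/

set_option autoImplicit false

open Polynomial MeasureTheory Filter Topology Set
open scoped OnePoint ComplexConjugate ComplexOrder Laplacian ENNReal
open Pool.Agent.H83.UE

namespace Pool.Agent.H43.UDA

/-- the integral of a directional derivative of a compactly supported function is zero -/
theorem int_fderiv_zero {g : ℂ → ℝ} (hg : ContDiff ℝ 1 g) (hc : HasCompactSupport g) (v : ℂ) :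
    ∫ z, fderiv ℝ g z v = 0 := by
  have hgi : Integrable g := hg.continuous.integrable_of_hasCompactSupport hc
  have hfc : Continuous fun z => fderiv ℝ g z v :=
    (hg.continuous_fderiv (by norm_num)).clm_apply continuous_const
  have hfs : HasCompactSupport fun z => fderiv ℝ g z v := by
    refine HasCompactSupport.intro hc fun z hz => ?_
    have h1 : fderiv ℝ g z = 0 := by
      by_contra hne
      exact hz (support_fderiv_subset ℝ (Function.mem_support.2 hne))
    rw [h1]; rfl
  have h := integral_mul_fderiv_eq_neg_fderiv_mul_of_integrable (μ := (volume : Measure ℂ))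
    (f := fun _ : ℂ => (1 : ℝ)) (g := g) (v := v) (by simp) (by
      simpa using hfc.integrable_of_hasCompactSupport hfs) (by simpa using hgi)
    (fun x _ => differentiableAt_const _) (fun x _ => hg.differentiable (by norm_num) x)
  simpa using h

theorem int_lap_zero {φ : ℂ → ℝ} (hφ : ContDiff ℝ 2 φ) (hc : HasCompactSupport φ) :
    ∫ z, (Δ φ) z = 0 := by
  have key : ∀ v : ℂ, ContDiff ℝ 1 (fun z => fderiv ℝ φ z v) ∧
      HasCompactSupport (fun z => fderiv ℝ φ z v) ∧
      ∀ z, iteratedFDeriv ℝ 2 φ z ![v, v] = fderiv ℝ (fun z => fderiv ℝ φ z v) z v := by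
    intro v
    have h1 : ContDiff ℝ 1 (fderiv ℝ φ) := hφ.fderiv_right (by norm_num)
    refine ⟨h1.clm_apply contDiff_const, ?_, ?_⟩
    · refine HasCompactSupport.intro hc fun z hz => ?_
      have h1 : fderiv ℝ φ z = 0 := by
        by_contra hne
        exact hz (support_fderiv_subset ℝ (Function.mem_support.2 hne))
      rw [h1]; rfl
    · intro z
      rw [iteratedFDeriv_two_apply]
      have h2 : DifferentiableAt ℝ (fderiv ℝ φ) z := h1.differentiable (by norm_num) z
      have h3 : HasFDerivAt (fun z => fderiv ℝ φ z v)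
          ((ContinuousLinearMap.apply ℝ ℝ v).comp (fderiv ℝ (fderiv ℝ φ) z)) z :=
        (ContinuousLinearMap.apply ℝ ℝ v).hasFDerivAt.comp z h2.hasFDerivAt
      rw [h3.fderiv]
      simp
  have hint : ∀ v : ℂ, Integrable (fun z => iteratedFDeriv ℝ 2 φ z ![v, v]) ∧
      ∫ z, iteratedFDeriv ℝ 2 φ z ![v, v] = 0 := by
    intro v
    obtain ⟨h1, h2, h3⟩ := key v
    simp only [h3]
    refine ⟨?_, int_fderiv_zero h1 h2 v⟩
    have hfc : Continuous fun z => fderiv ℝ (fun z => fderiv ℝ φ z v) z v :=
      (h1.continuous_fderiv (by norm_num)).clm_apply continuous_const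
    refine hfc.integrable_of_hasCompactSupport ?_
    refine HasCompactSupport.intro h2 fun z hz => ?_
    have h1 : fderiv ℝ (fun z => fderiv ℝ φ z v) z = 0 := by
      by_contra hne
      exact hz (support_fderiv_subset ℝ (Function.mem_support.2 hne))
    rw [h1]; rfl
  rw [InnerProductSpace.laplacian_eq_iteratedFDeriv_complexPlane]
  rw [integral_add (hint 1).1 (hint Complex.I).1, (hint 1).2, (hint Complex.I).2, add_zero]

theorem pf_RU : T_RU := by
  intro u hu hc
  have hre : ContDiff ℝ 2 (fun x => (u x).re) := Complex.reCLM.contDiff.comp hu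
  have him : ContDiff ℝ 2 (fun x => (u x).im) := Complex.imCLM.contDiff.comp hu
  have hrc : HasCompactSupport (fun x => (u x).re) := hc.comp_left (g := Complex.re) rfl
  have hic : HasCompactSupport (fun x => (u x).im) := hc.comp_left (g := Complex.im) rfl
  have hcr : Continuous (Δ fun x => (u x).re) := Pool.Agent.H69.LIM.lap_continuous hre
  have hci : Continuous (Δ fun x => (u x).im) := Pool.Agent.H69.LIM.lap_continuous him
  have hsr := Pool.Agent.H69.LIM.lap_compact hrc
  have hsi := Pool.Agent.H69.LIM.lap_compact hic
  have hIr := hcr.integrable_of_hasCompactSupport (μ := (volume : Measure ℂ)) hsr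
  have hIi := hci.integrable_of_hasCompactSupport (μ := (volume : Measure ℂ)) hsi
  refine ⟨⟨?_, ?_, ?_⟩, ?_⟩
  · unfold dens lapC
    exact continuous_const.mul ((Complex.continuous_ofReal.comp hcr).add
      (continuous_const.mul (Complex.continuous_ofReal.comp hci)))
  · refine HasCompactSupport.intro (K := tsupport u) hc fun z hz => ?_
    have h1 : (Δ fun x => (u x).re) z = 0 := by
      apply Pool.Agent.H69.LIM.lap_zero
      intro h2
      have h4 : Function.support (fun x => (u x).re) ⊆ Function.support u := by
        intro y hy h3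
        exact hy (show (u y).re = 0 by rw [h3]; rfl)
      exact hz (closure_mono h4 h2)
    have h2 : (Δ fun x => (u x).im) z = 0 := by
      apply Pool.Agent.H69.LIM.lap_zero
      intro h2
      have h4 : Function.support (fun x => (u x).im) ⊆ Function.support u := by
        intro y hy h3
        exact hy (show (u y).im = 0 by rw [h3]; rfl)
      exact hz (closure_mono h4 h2)
    unfold dens lapC
    rw [h1, h2]
    simp
  · unfold dens lapC
    rw [integral_const_mul, integral_add hIr.ofReal (hIi.ofReal.const_mul _), integral_const_mul,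
      integral_complex_ofReal, integral_complex_ofReal, int_lap_zero hre hrc, int_lap_zero him hic]
    simp
  · funext x
    obtain ⟨hr1, hr2⟩ := Pool.Agent.H20.LIM.All.fun_ _ hre hrc x
    obtain ⟨hi1, hi2⟩ := Pool.Agent.H20.LIM.All.fun_ _ him hic x
    unfold pot dens lapC
    have e1 : ∀ w : ℂ, (Real.log ‖x - w‖ : ℂ) * (((2 * Real.pi)⁻¹ : ℝ) *
        (((Δ fun x => (u x).re) w : ℂ) + Complex.I * ((Δ fun x => (u x).im) w : ℂ))) =
        (((2 * Real.pi)⁻¹ : ℝ) : ℂ) *
          (((Real.log ‖w - x‖ * (Δ fun x => (u x).re) w : ℝ) : ℂ) +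
            Complex.I * ((Real.log ‖w - x‖ * (Δ fun x => (u x).im) w : ℝ) : ℂ)) := by
      intro w
      rw [norm_sub_rev x w]
      push_cast
      ring
    simp only [e1]
    rw [integral_const_mul, integral_add hr1.ofReal (hi1.ofReal.const_mul _), integral_const_mul,
      integral_complex_ofReal, integral_complex_ofReal, hr2, hi2]
    have hpi : (Real.pi : ℂ) ≠ 0 := Complex.ofReal_ne_zero.2 Real.pi_ne_zero
    conv_rhs => rw [← Complex.re_add_im (u x)]
    push_cast
    field_simp

end Pool.Agent.H43.UDA
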